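import Pool.Agent.T2h48.LF.T_RINGF

/-! FORMF -/

set_option autoImplicit false
set_option linter.all false
set_option maxHeartbeats 4000000

namespace Pool.Agent.T2h48.LF

open Pool.Agent.T2h48.DW MvPolynomial Pool.Agent.T2h48.LP

/-- truth of a formula at a homomorphism from the polynomial ring -/
def HR {F : Type} [Field F] {n : ℕ} {K : Type} [Field K] [Algebra F K] :
    QF F n → (MvPolynomial (Fin n) F →ₐ[F] K) → Prop
  | QF.eq f, x => x f = 0
  | QF.neg φ, x => ¬ HR φ x
  | QF.and φ ψ, x => HR φ x ∧ HR ψ x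

/-- the number of the points of locally closed sets satisfying `G` has an asymptotic form -/
def Good {F : Type} [Field F] {n : ℕ}
    (G : (K : Type) → [Field K] → [Algebra F K] → (MvPolynomial (Fin n) F →ₐ[F] K) → Prop) : Prop :=
  ∀ (I : Ideal (MvPolynomial (Fin n) F)) (t : MvPolynomial (Fin n) F),
    AsyL F (fun K _ _ _ => Nat.card {x : MvPolynomial (Fin n) F →ₐ[F] K //
      (∀ f ∈ I, x f = 0) ∧ x t ≠ 0 ∧ G K x})

theorem good_true (hR : S_RINGF) {F : Type} [Field F] [Finite F] (n : ℕ) :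
    Good (F := F) (n := n) (fun _ _ _ _ => True) := by
  intro I t
  refine asyL_congr ?_ (hR F (MvPolynomial (Fin n) F ⧸ I) (Ideal.Quotient.mk I t))
  intro K _ _ _
  refine Nat.card_congr ⟨fun x => ⟨Ideal.Quotient.liftₐ I x.1 x.2.1, x.2.2.1⟩,
    fun y => ⟨y.1.comp (Ideal.Quotient.mkₐ F I), fun f hf => by
      show y.1 (Ideal.Quotient.mk I f) = 0
      rw [Ideal.Quotient.eq_zero_iff_mem.2 hf, map_zero], y.2, trivial⟩, ?_, ?_⟩
  · intro x
    apply Subtype.ext
    exact AlgHom.ext fun f => rfl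
  · intro y
    apply Subtype.ext
    refine AlgHom.ext fun x => ?_
    obtain ⟨x, rfl⟩ := Ideal.Quotient.mk_surjective x
    rfl

theorem good_qf {F : Type} [Field F] [Finite F] {n : ℕ} (φ : QF F n) :
    ∀ G : (K : Type) → [Field K] → [Algebra F K] → (MvPolynomial (Fin n) F →ₐ[F] K) → Prop, Good G →
      Good (fun K _ _ x => HR φ x ∧ G K x) ∧ Good (fun K _ _ x => ¬ HR φ x ∧ G K x) := by
  induction φ with
  | eq f =>
    intro G hG
    constructor
    · intro I t
      refine asyL_congr ?_ (hG (I ⊔ Ideal.span {f}) t)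
      intro K _ _ _
      refine Nat.card_congr (Equiv.subtypeEquivRight fun x => ?_)
      have h1 : (∀ g ∈ I ⊔ Ideal.span {f}, x g = 0) ↔ (∀ g ∈ I, x g = 0) ∧ x f = 0 := by
        constructor
        · intro h
          exact ⟨fun g hg => h g (Ideal.mem_sup_left hg),
            h f (Ideal.mem_sup_right (Ideal.mem_span_singleton_self f))⟩
        · rintro ⟨h1, h2⟩ g hg
          have h3 : I ⊔ Ideal.span {f} ≤ RingHom.ker x := by
            rw [sup_le_iff]
            refine ⟨fun y hy => h1 y hy, ?_⟩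
            rw [Ideal.span_le, Set.singleton_subset_iff]
            exact h2
          exact h3 hg
      rw [h1]
      show _ ∧ _ ∧ (x f = 0 ∧ G K x) ↔ _
      tauto
    · intro I t
      refine asyL_congr ?_ (hG I (t * f))
      intro K _ _ _
      refine Nat.card_congr (Equiv.subtypeEquivRight fun x => ?_)
      rw [map_mul, mul_ne_zero_iff]
      show _ ∧ _ ∧ (¬ x f = 0 ∧ G K x) ↔ _
      tauto
  | neg φ ih =>
    intro G hG
    obtain ⟨h1, h2⟩ := ih G hG
    refine ⟨h2, ?_⟩
    intro I t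
    refine asyL_congr ?_ (h1 I t)
    intro K _ _ _
    refine Nat.card_congr (Equiv.subtypeEquivRight fun x => ?_)
    show _ ∧ _ ∧ (¬ ¬ HR φ x ∧ G K x) ↔ _
    rw [not_not]
  | and φ ψ ih1 ih2 =>
    intro G hG
    obtain ⟨h1, h2⟩ := ih1 G hG
    obtain ⟨h3, h4⟩ := ih2 _ h1
    constructor
    · intro I t
      refine asyL_congr ?_ (h3 I t)
      intro K _ _ _
      refine Nat.card_congr (Equiv.subtypeEquivRight fun x => ?_)
      show _ ∧ _ ∧ ((HR φ x ∧ HR ψ x) ∧ G K x) ↔ _
      tauto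
    · intro I t
      refine asyL_congr ?_ (asyL_add (h2 I t) (h4 I t))
      intro K _ _ _
      have hfin : Finite (MvPolynomial (Fin n) F →ₐ[F] K) := algHom_finite _ _ _
      refine LP.card_split _ _ _ ?_ ?_
      · intro x
        show _ ∧ _ ∧ (¬ (HR φ x ∧ HR ψ x) ∧ G K x) ↔ _
        tauto
      · intro x
        tauto

theorem hr_aeval {F : Type} [Field F] {n : ℕ} {K : Type} [Field K] [Algebra F K] (φ : QF F n)
    (z : MvPolynomial (Fin n) F →ₐ[F] K) : HR φ z ↔ φ.Holds (fun i => z (X i)) := by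
  have hz : ∀ f, aeval (fun i => z (X i)) f = z f := fun f =>
    (DFunLike.congr_fun (MvPolynomial.aeval_unique z) f).symm
  induction φ with
  | eq f =>
    show z f = 0 ↔ aeval (fun i => z (X i)) f = 0
    rw [hz]
  | neg φ ih =>
    exact not_congr ih
  | and φ ψ ih1 ih2 =>
    exact and_congr ih1 ih2

theorem t_FORMF (hR : S_RINGF) : S_FORMF := by
  intro F _ _ n φ
  refine asyL_congr ?_ ((good_qf φ _ (good_true hR n)).1 ⊥ 1)
  intro K _ _ _
  refine Nat.card_congr ⟨fun x => ⟨aeval x.1, ?_, ?_, ?_, trivial⟩,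
    fun z => ⟨fun i => z.1 (X i), (hr_aeval φ z.1).1 z.2.2.2.1⟩, ?_, ?_⟩
  · intro f hf
    rw [Ideal.mem_bot] at hf
    rw [hf, map_zero]
  · rw [map_one]
    exact one_ne_zero
  · rw [hr_aeval]
    have : (fun i => (aeval x.1 : MvPolynomial (Fin n) F →ₐ[F] K) (X i)) = x.1 := by
      funext i
      rw [aeval_X]
    rw [this]
    exact x.2
  · intro x
    apply Subtype.ext
    funext i
    exact aeval_X _ _
  · intro z
    apply Subtype.ext
    exact (MvPolynomial.aeval_unique z.1).symm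

end Pool.Agent.T2h48.LF
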