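import Pool.Agent.T2h48.LP.All
import Pool.Agent.T2h48.LF.T_FORMF

/-! The theorem of Lang and Weil over the extensions of a finite field. -/

set_option autoImplicit false

namespace Pool.Agent.T2h48.LF

theorem ringF : S_RINGF := t_RINGF LP.main_all

theorem formF : S_FORMF := t_FORMF ringF

end Pool.Agent.T2h48.LF
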