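import Pool.Agent.T2h48.LF.Stm

/-! RINGF -/

set_option autoImplicit false
set_option linter.all false
set_option maxHeartbeats 4000000
set_option synthInstance.maxHeartbeats 400000

namespace Pool.Agent.T2h48.LF

open Pool.Agent.R410.LW Pool.Agent.T2h48.LP Pool.Agent.T2h48.DW

/-- the homomorphisms of finite fields -/
theorem card_hom_ff (p : ℕ) [Fact p.Prime] (L K : Type) [Field L] [Finite L] [CharP L p] [Field K]
    [Finite K] [CharP K p] (f g : ℕ) (hf : Nat.card L = p ^ f) (hg : Nat.card K = p ^ g) :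
    Nat.card (L →+* K) = if f ∣ g then f else 0 := by
  let _ : Algebra (ZMod p) L := ZMod.algebra L p
  let _ : Algebra (ZMod p) K := ZMod.algebra K p
  have hp : 1 < p := (Fact.out : p.Prime).one_lt
  have h1 : Module.finrank (ZMod p) L = f := by
    apply Nat.pow_right_injective hp
    show p ^ _ = p ^ _
    rw [FiniteField.pow_finrank_eq_natCard, hf]
  have h2 : Module.finrank (ZMod p) K = g := by
    apply Nat.pow_right_injective hp
    show p ^ _ = p ^ _
    rw [FiniteField.pow_finrank_eq_natCard, hg]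
  have e : Nat.card (L →+* K) = Nat.card (L →ₐ[ZMod p] K) := by
    refine Nat.card_congr
      { toFun := fun ψ => AlgHom.mk ψ (fun r =>
          RingHom.congr_fun (RingHom.ext_zmod (ψ.comp (algebraMap (ZMod p) L)) (algebraMap (ZMod p) K)) r)
        invFun := fun ψ => ψ.toRingHom
        left_inv := fun ψ => rfl
        right_inv := fun ψ => rfl }
  rw [e]
  split_ifs with h
  · rw [FiniteField.natCard_algHom_of_finrank_dvd (by rw [h1, h2]; exact h), h1]
  · have : IsEmpty (L →ₐ[ZMod p] K) := by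
      rw [← not_nonempty_iff, FiniteField.nonempty_algHom_iff_finrank_dvd, h1, h2]
      exact h
    exact Nat.card_of_isEmpty

/-- the constants of `F` are in `L` -/
theorem dvd_of_landau (p : ℕ) [Fact p.Prime] {F B : Type} [Field F] [Finite F] [CommRing B] [IsDomain B]
    [CharP F p] (ι : F →+* B) {L : Type} [Field L] [Finite L] [CharP L p] {d e f : ℕ}
    (hF : Nat.card F = p ^ e) (hLf : Nat.card L = p ^ f) (h : LandauP p B d L) : e ∣ f := by
  obtain ⟨s, hs, h⟩ := h
  obtain ⟨C, hC0, hC⟩ := h s hs (dvd_refl s)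
  by_contra hef
  have hp : 1 < p := (Fact.out : p.Prime).one_lt
  have he : e ≠ 0 := by
    rintro rfl
    rw [pow_zero] at hF
    have := Finite.one_lt_card (α := F)
    omega
  have hf : f ≠ 0 := by
    rintro rfl
    exact hef (dvd_zero e)
  obtain ⟨N, hN⟩ : ∃ N : ℕ, C ^ 2 < N := exists_nat_gt _
  set g := f * (1 + e * N) with hg
  have hg0 : g ≠ 0 := by positivity
  have hcK : Nat.card (GaloisField p g) = p ^ g := GaloisField.card p g hg0
  have hfin : Finite (GaloisField p g) := inferInstance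
  have h1 := hC (GaloisField p g)
  have h2 : Nat.card (L →+* GaloisField p g) = f := by
    rw [card_hom_ff p L (GaloisField p g) f g hLf hcK, if_pos (Dvd.intro _ rfl)]
  have h3 : Nat.card (F →+* GaloisField p g) = 0 := by
    rw [card_hom_ff p F (GaloisField p g) e g hF hcK, if_neg]
    intro h
    apply hef
    have hco : Nat.Coprime e (1 + e * N) := by
      rw [Nat.coprime_add_mul_left_right]
      exact Nat.coprime_one_right e
    exact hco.dvd_of_dvd_mul_right h
  have hfF : Finite (F →+* GaloisField p g) :=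
    Finite.of_injective (fun (φ : F →+* GaloisField p g) (x : F) => φ x) fun a b h =>
      RingHom.ext fun x => congrFun h x
  have h4 : IsEmpty {φ : B →+* GaloisField p g // φ s ≠ 0} := by
    constructor
    rintro ⟨φ, -⟩
    have : Nonempty (F →+* GaloisField p g) := ⟨φ.comp ι⟩
    have := Nat.card_pos (α := F →+* GaloisField p g)
    omega
  rw [Nat.card_of_isEmpty, h2, Nat.cast_zero, zero_sub, abs_neg, abs_of_nonneg (by positivity), hcK] at h1
  have h5 : (0 : ℝ) < ((p ^ g : ℕ) : ℝ) := by positivity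
  have h6 : (0 : ℝ) < ((p ^ g : ℕ) : ℝ) ^ d := by positivity
  have h7 : (f : ℝ) * √((p ^ g : ℕ) : ℝ) ≤ C := by
    have : ((f : ℝ) * √((p ^ g : ℕ) : ℝ)) * ((p ^ g : ℕ) : ℝ) ^ d ≤ C * ((p ^ g : ℕ) : ℝ) ^ d := by
      calc _ = (f : ℝ) * ((p ^ g : ℕ) : ℝ) ^ d * √((p ^ g : ℕ) : ℝ) := by ring
        _ ≤ _ := h1
    exact le_of_mul_le_mul_right this h6
  have h8 : √((p ^ g : ℕ) : ℝ) ≤ C := by
    refine le_trans ?_ h7
    have : (1 : ℝ) ≤ f := by exact_mod_cast Nat.one_le_iff_ne_zero.2 hf
    nlinarith [Real.sqrt_nonneg ((p ^ g : ℕ) : ℝ)]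
  have h9 : ((p ^ g : ℕ) : ℝ) ≤ C ^ 2 := by
    rw [Real.sqrt_le_left hC0] at h8
    exact h8
  have h10 : N < p ^ g := by
    have : N ≤ g := by
      rw [hg]
      have e1 : N ≤ e * N := Nat.le_mul_of_pos_left _ (Nat.pos_of_ne_zero he)
      have e2 : 1 + e * N ≤ f * (1 + e * N) := Nat.le_mul_of_pos_left _ (Nat.pos_of_ne_zero hf)
      omega
    exact lt_of_le_of_lt this (Nat.lt_pow_self hp)
  have h11 : (N : ℝ) < ((p ^ g : ℕ) : ℝ) := by exact_mod_cast h10
  linarith

/-- ring homomorphisms and `F`-algebra homomorphisms -/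
theorem card_total (p : ℕ) [Fact p.Prime] {F K : Type} [Field F] [Finite F] [Field K] [Finite K]
    [CharP F p] [CharP K p] [Algebra F K] (B : Type) [CommRing B] [Algebra F B] (t : B)
    (hfin : Finite (B →+* K)) :
    Nat.card {φ : B →+* K // φ t ≠ 0} = Nat.card (F →+* K) * Nat.card {φ : B →ₐ[F] K // φ t ≠ 0} := by
  classical
  have hfin2 : Finite (F →+* K) := Finite.of_injective (fun (φ : F →+* K) (x : F) => φ x) fun a b h =>
    RingHom.ext fun x => congrFun h x
  have : Fintype (F →+* K) := Fintype.ofFinite _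
  have hfib : ∀ ψ : F →+* K,
      Nat.card {z : {φ : B →+* K // φ t ≠ 0} // z.1.comp (algebraMap F B) = ψ} =
        Nat.card {φ : B →ₐ[F] K // φ t ≠ 0} := by
    intro ψ
    obtain ⟨τ, hτ, hτψ⟩ := Form.exists_lift p ψ
    let τe : K ≃+* K := RingEquiv.ofBijective τ hτ
    symm
    refine Nat.card_congr
      { toFun := fun φ => ⟨⟨τ.comp φ.1.toRingHom, ?_⟩, ?_⟩
        invFun := fun z => ⟨AlgHom.mk ((τe.symm : K →+* K).comp z.1.1) ?_, ?_⟩
        left_inv := ?_
        right_inv := ?_ }
    · rw [RingHom.comp_apply, map_ne_zero]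
      exact φ.2
    · refine RingHom.ext fun c => ?_
      rw [RingHom.comp_apply, RingHom.comp_apply]
      show τ (φ.1 (algebraMap F B c)) = ψ c
      rw [φ.1.commutes, hτψ]
    · intro c
      show τe.symm (z.1.1 (algebraMap F B c)) = algebraMap F K c
      rw [← RingHom.comp_apply, z.2, ← hτψ]
      exact τe.symm_apply_apply _
    · show τe.symm (z.1.1 t) ≠ 0
      rw [ne_eq, map_eq_zero_iff τe.symm τe.symm.injective]
      exact z.1.2
    · intro φ
      apply Subtype.ext
      refine AlgHom.ext fun x => ?_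
      exact τe.symm_apply_apply _
    · intro z
      apply Subtype.ext
      apply Subtype.ext
      refine RingHom.ext fun x => ?_
      exact τe.apply_symm_apply _
  rw [Nat.card_congr (Equiv.sigmaFiberEquiv
    (fun z : {φ : B →+* K // φ t ≠ 0} => z.1.comp (algebraMap F B))).symm, Nat.card_sigma,
    Finset.sum_congr rfl (fun ψ _ => hfib ψ), Finset.sum_const, Finset.card_univ,
    smul_eq_mul, Nat.card_eq_fintype_card (α := F →+* K)]

theorem asyL_zero (F : Type) [Field F] (ν : (K : Type) → [Field K] → [Finite K] → [Algebra F K] → ℕ)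
    (h : ∀ (K : Type) [Field K] [Finite K] [Algebra F K], ν K = 0) : AsyL F ν := by
  refine ⟨0, Fin.elim0, Fin.elim0, 0, fun i => i.elim0, fun K _ _ _ => ?_⟩
  rw [h K]
  simp [Mt, Et]

theorem asyL_congr {F : Type} [Field F] {ν μ : (K : Type) → [Field K] → [Finite K] → [Algebra F K] → ℕ}
    (h : ∀ (K : Type) [Field K] [Finite K] [Algebra F K], ν K = μ K) (hμ : AsyL F μ) : AsyL F ν := by
  obtain ⟨r, f, d, C, h1, g⟩ := hμ
  refine ⟨r, f, d, C, h1, fun K _ _ _ => ?_⟩
  rw [h K]
  exact g K

theorem Et_nonneg {r : ℕ} (f d : Fin r → ℕ) (m : ℕ) {q : ℝ} (hq : 0 ≤ q) : 0 ≤ Et f d m q := by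
  unfold Et
  refine Finset.sum_nonneg fun i _ => ?_
  split_ifs
  · positivity
  · exact le_rfl

theorem asyL_add {F : Type} [Field F] {ν μ : (K : Type) → [Field K] → [Finite K] → [Algebra F K] → ℕ}
    (hν : AsyL F ν) (hμ : AsyL F μ) : AsyL F (fun K _ _ _ => ν K + μ K) := by
  obtain ⟨r, f, d, C, h1, g⟩ := hν
  obtain ⟨r', f', d', C', h1', g'⟩ := hμ
  refine ⟨r + r', Fin.append f f', Fin.append d d', max C C', ?_, fun K _ _ _ => ?_⟩
  · intro i
    refine Fin.addCases (fun i => ?_) (fun i => ?_) i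
    · rw [Fin.append_left]; exact h1 i
    · rw [Fin.append_right]; exact h1' i
  have eM : Mt (Fin.append f f') (Fin.append d d') (Module.finrank F K) (Nat.card K) =
      Mt f d (Module.finrank F K) (Nat.card K) + Mt f' d' (Module.finrank F K) (Nat.card K) := by
    unfold Mt
    rw [Fin.sum_univ_add]
    simp only [Fin.append_left, Fin.append_right]
  have eE : Et (Fin.append f f') (Fin.append d d') (Module.finrank F K) (Nat.card K) =
      Et f d (Module.finrank F K) (Nat.card K) + Et f' d' (Module.finrank F K) (Nat.card K) := by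
    unfold Et
    rw [Fin.sum_univ_add]
    simp only [Fin.append_left, Fin.append_right]
  rw [eM, eE]
  have h2 := g K
  have h2' := g' K
  have h3 := Et_nonneg f d (Module.finrank F K) (q := (Nat.card K : ℝ)) (by positivity)
  have h3' := Et_nonneg f' d' (Module.finrank F K) (q := (Nat.card K : ℝ)) (by positivity)
  have h4 : (C : ℝ) ≤ (max C C' : ℕ) := by exact_mod_cast le_max_left _ _
  have h4' : (C' : ℝ) ≤ (max C C' : ℕ) := by exact_mod_cast le_max_right _ _
  have h5 := Real.sqrt_nonneg (Nat.card K : ℝ)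
  push_cast
  calc |(ν K : ℝ) + μ K - (Mt f d (Module.finrank F K) (Nat.card K) +
        Mt f' d' (Module.finrank F K) (Nat.card K))| * √(Nat.card K : ℝ)
      ≤ (|(ν K : ℝ) - Mt f d (Module.finrank F K) (Nat.card K)| +
          |(μ K : ℝ) - Mt f' d' (Module.finrank F K) (Nat.card K)|) * √(Nat.card K : ℝ) := by
        refine mul_le_mul_of_nonneg_right ?_ h5
        have : (ν K : ℝ) + μ K - (Mt f d (Module.finrank F K) (Nat.card K) +
            Mt f' d' (Module.finrank F K) (Nat.card K)) =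
            ((ν K : ℝ) - Mt f d (Module.finrank F K) (Nat.card K)) +
            ((μ K : ℝ) - Mt f' d' (Module.finrank F K) (Nat.card K)) := by ring
        rw [this]
        exact abs_add_le _ _
    _ ≤ C * Et f d (Module.finrank F K) (Nat.card K) + C' * Et f' d' (Module.finrank F K) (Nat.card K) := by
        rw [add_mul]
        exact add_le_add h2 h2'
    _ ≤ _ := by
        push_cast at h4 h4'
        nlinarith

/-- the case of a domain -/
theorem piece (hMAIN : S_MAIN) {F : Type} [Field F] [Finite F] (B : Type) [CommRing B] [IsDomain B]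
    [Algebra F B] [Algebra.FiniteType F B] : ∃ s : B, s ≠ 0 ∧ ∀ t : B, t ≠ 0 → s ∣ t →
      AsyL F (fun K _ _ _ => Nat.card {φ : B →ₐ[F] K // φ t ≠ 0}) := by
  obtain ⟨p, hp⟩ := CharP.exists F
  have hpp : Fact p.Prime := ⟨CharP.char_is_prime F p⟩
  have hcB : CharP B p := charP_of_injective_algebraMap (FaithfulSMul.algebraMap_injective F B) p
  have hFZ : Algebra.FiniteType ℤ F := by
    have : Module.Finite ℤ F := Module.Finite.of_finite
    infer_instance
  have hBZ : @Algebra.FiniteType ℤ B _ _ (Ring.toIntAlgebra B) :=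
    Form.ft_int_of _ (Algebra.FiniteType.trans hFZ (inferInstance : Algebra.FiniteType F B))
  obtain ⟨L, iL, fL, d, ⟨j⟩, hLan⟩ := landau_dom hMAIN (p := p) B (CharP.cast_eq_zero B p)
  obtain ⟨a, ha0, ha⟩ := LP.exists_hom (A := B) (M := FractionRing B) (L := L) j
  have hcFr : CharP (FractionRing B) p :=
    charP_of_injective_algebraMap (IsFractionRing.injective B (FractionRing B)) p
  have hcL : CharP L p := (RingHom.charP_iff j j.injective p).2 hcFr
  obtain ⟨e, he⟩ : ∃ e, Nat.card F = p ^ e := by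
    let _ : Algebra (ZMod p) F := ZMod.algebra F p
    exact ⟨_, (FiniteField.pow_finrank_eq_natCard p F).symm⟩
  obtain ⟨f, hf⟩ : ∃ f, Nat.card L = p ^ f := by
    let _ : Algebra (ZMod p) L := ZMod.algebra L p
    exact ⟨_, (FiniteField.pow_finrank_eq_natCard p L).symm⟩
  have he0 : e ≠ 0 := by
    rintro rfl
    rw [pow_zero] at he
    have := Finite.one_lt_card (α := F)
    omega
  have hf0 : f ≠ 0 := by
    rintro rfl
    rw [pow_zero] at hf
    have := Finite.one_lt_card (α := L)
    omega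
  obtain ⟨f', rfl⟩ := dvd_of_landau p (algebraMap F B) he hf hLan
  obtain ⟨s, hs0, hs⟩ := hLan
  refine ⟨s * a, mul_ne_zero hs0 ha0, fun t ht hst => ?_⟩
  obtain ⟨C, hC0, hC⟩ := hs t ht ((Dvd.intro _ rfl).trans hst)
  refine ⟨1, fun _ => f', fun _ => d, ⌈C⌉₊, fun _ => ?_, fun K _ _ _ => ?_⟩
  · rcases Nat.eq_zero_or_pos f' with h | h
    · rw [h, mul_zero] at hf0
      exact absurd rfl hf0
    · exact h
  have hcK : CharP K p := charP_of_injective_algebraMap (algebraMap F K).injective p
  have hfB : Finite (B →+* K) := LP.hom_finite _ _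
  have hKc : Nat.card K = p ^ (e * Module.finrank F K) := by
    rw [Module.natCard_eq_pow_finrank (K := F), he, ← pow_mul]
  have h1 := hC K
  rw [card_total p (F := F) B t hfB, card_hom_ff p F K e _ he hKc, if_pos (Dvd.intro _ rfl),
    card_hom_ff p L K _ _ hf hKc] at h1
  have hdv : e * f' ∣ e * Module.finrank F K ↔ f' ∣ Module.finrank F K :=
    Nat.mul_dvd_mul_iff_left (Nat.pos_of_ne_zero he0)
  simp only [Mt, Et, Finset.univ_unique, Finset.sum_singleton]
  by_cases hd : f' ∣ Module.finrank F K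
  · rw [if_pos hd, if_pos hd]
    rw [if_pos (hdv.2 hd)] at h1
    push_cast at h1
    have h2 : |(e : ℝ) * (Nat.card {φ : B →ₐ[F] K // φ t ≠ 0} : ℝ) - e * f' * (Nat.card K : ℝ) ^ d| =
        e * |(Nat.card {φ : B →ₐ[F] K // φ t ≠ 0} : ℝ) - f' * (Nat.card K : ℝ) ^ d| := by
      rw [mul_assoc, ← mul_sub, abs_mul, abs_of_nonneg (Nat.cast_nonneg e)]
    rw [h2] at h1
    have h3 : (1 : ℝ) ≤ e := by exact_mod_cast Nat.one_le_iff_ne_zero.2 he0
    have h4 : 0 ≤ |(Nat.card {φ : B →ₐ[F] K // φ t ≠ 0} : ℝ) - f' * (Nat.card K : ℝ) ^ d| *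
        √(Nat.card K : ℝ) := by positivity
    calc _ ≤ e * (|(Nat.card {φ : B →ₐ[F] K // φ t ≠ 0} : ℝ) - f' * (Nat.card K : ℝ) ^ d| *
        √(Nat.card K : ℝ)) := by nlinarith
      _ ≤ C * (Nat.card K : ℝ) ^ d := by rw [← mul_assoc]; exact h1
      _ ≤ _ := by
        refine mul_le_mul_of_nonneg_right (Nat.le_ceil C) (by positivity)
  · rw [if_neg hd, if_neg hd]
    have h2 : IsEmpty {φ : B →ₐ[F] K // φ t ≠ 0} := by
      constructor
      rintro ⟨φ, hφ⟩
      have hφa : φ a ≠ 0 := by
        intro h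
        apply hφ
        obtain ⟨c, rfl⟩ := hst
        rw [map_mul, map_mul, h, mul_zero, zero_mul]
      obtain ⟨ψ⟩ := ha K φ.toRingHom hφa
      have h5 : 0 < Nat.card (L →+* K) := by
        have : Nonempty (L →+* K) := ⟨ψ⟩
        have : Finite (L →+* K) := Finite.of_injective (fun (φ : L →+* K) (x : L) => φ x) fun a b h =>
          RingHom.ext fun x => congrFun h x
        exact Nat.card_pos
      rw [card_hom_ff p L K _ _ hf hKc, if_neg (fun h => hd (hdv.1 h))] at h5
      exact lt_irrefl _ h5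
    rw [Nat.card_of_isEmpty]
    simp

/-- the points of the closed subscheme of an ideal, where `t ≠ 0` -/
noncomputable def nu (F A : Type) [Field F] [CommRing A] [Algebra F A] (I : Ideal A) (t : A) :
    (K : Type) → [Field K] → [Finite K] → [Algebra F K] → ℕ :=
  fun K _ _ _ => Nat.card {φ : A →ₐ[F] K // (∀ a ∈ I, φ a = 0) ∧ φ t ≠ 0}

theorem algHom_finite (F A K : Type) [Field F] [Finite F] [CommRing A] [Algebra F A]
    [Algebra.FiniteType F A] [Field K] [Finite K] [Algebra F K] : Finite (A →ₐ[F] K) := by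
  obtain ⟨S, hS⟩ := (inferInstance : Algebra.FiniteType F A).out
  refine Finite.of_injective (fun (φ : A →ₐ[F] K) (x : S) => φ x) ?_
  intro φ φ' h
  refine AlgHom.ext_of_adjoin_eq_top hS fun x hx => ?_
  exact congrFun h ⟨x, hx⟩

theorem asy_nu (hL : S_MAIN) (F : Type) [Field F] [Finite F] (A : Type) [CommRing A] [Algebra F A]
    [Algebra.FiniteType F A] : ∀ (I : Ideal A) (t : A), AsyL F (nu F A I t) := by
  have hN : IsNoetherianRing A := Algebra.FiniteType.isNoetherianRing F A
  intro I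
  have hwf : WellFoundedGT (Ideal A) := inferInstance
  induction I using WellFoundedGT.induction with
  | ind I ih =>
  intro t
  have key : ∀ (a : A), a ∉ I → ∀ t, AsyL F (nu F A (I ⊔ Ideal.span {a}) t) := by
    intro a ha t
    refine ih _ ?_ t
    rw [lt_iff_le_and_ne]
    refine ⟨le_sup_left, ?_⟩
    intro h
    apply ha
    rw [h]
    exact Ideal.mem_sup_right (Ideal.mem_span_singleton_self a)
  have hsup : ∀ (a : A) (K : Type) [Field K] [Algebra F K] (φ : A →ₐ[F] K),
      (∀ x ∈ I ⊔ Ideal.span {a}, φ x = 0) ↔ (∀ x ∈ I, φ x = 0) ∧ φ a = 0 := by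
    intro a K _ _ φ
    constructor
    · intro h
      exact ⟨fun x hx => h x (Ideal.mem_sup_left hx), h a (Ideal.mem_sup_right (Ideal.mem_span_singleton_self a))⟩
    · rintro ⟨h1, h2⟩ x hx
      have h3 : I ⊔ Ideal.span {a} ≤ RingHom.ker φ := by
        rw [sup_le_iff]
        refine ⟨fun y hy => h1 y hy, ?_⟩
        rw [Ideal.span_le, Set.singleton_subset_iff]
        exact h2
      exact h3 hx
  by_cases htop : I = ⊤
  · refine asyL_zero _ _ ?_
    intro K _ _ _
    have : IsEmpty {φ : A →ₐ[F] K // (∀ a ∈ I, φ a = 0) ∧ φ t ≠ 0} := by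
      constructor
      rintro ⟨φ, h, -⟩
      have := h 1 (by rw [htop]; trivial)
      rw [map_one] at this
      exact one_ne_zero this
    exact Nat.card_of_isEmpty
  by_cases hp : I.IsPrime
  · -- the prime case
    have hdom : IsDomain (A ⧸ I) := Ideal.Quotient.isDomain I
    by_cases htI : t ∈ I
    · refine asyL_zero _ _ ?_
      intro K _ _ _
      have : IsEmpty {φ : A →ₐ[F] K // (∀ a ∈ I, φ a = 0) ∧ φ t ≠ 0} := by
        constructor
        rintro ⟨φ, h, h'⟩
        exact h' (h t htI)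
      exact Nat.card_of_isEmpty
    have hft : Algebra.FiniteType F (A ⧸ I) := inferInstance
    obtain ⟨s, hs0, hs⟩ := piece hL (F := F) (A ⧸ I)
    obtain ⟨s, rfl⟩ := Ideal.Quotient.mk_surjective s
    have htq : Ideal.Quotient.mk I t ≠ 0 := by
      rw [ne_eq, Ideal.Quotient.eq_zero_iff_mem]
      exact htI
    have hsI : s ∉ I := by
      rw [← Ideal.Quotient.eq_zero_iff_mem]
      exact hs0
    have h1 : AsyL F (nu F A I (t * s)) := by
      refine asyL_congr ?_ (hs (Ideal.Quotient.mk I (t * s)) (by rw [map_mul]; exact mul_ne_zero htq hs0)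
        ⟨Ideal.Quotient.mk I t, by rw [← map_mul]; congr 1; ring⟩)
      intro K _ _ _
      unfold nu
      refine Nat.card_congr
        { toFun := fun φ => ⟨Ideal.Quotient.liftₐ I φ.1 φ.2.1, ?_⟩
          invFun := fun φ => ⟨φ.1.comp (Ideal.Quotient.mkₐ F I), ?_, ?_⟩
          left_inv := ?_
          right_inv := ?_ }
      · exact φ.2.2
      · intro x hx
        show φ.1 (Ideal.Quotient.mk I x) = 0
        rw [Ideal.Quotient.eq_zero_iff_mem.2 hx, map_zero]
      · exact φ.2
      · intro φ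
        apply Subtype.ext
        exact AlgHom.ext fun x => rfl
      · intro φ
        apply Subtype.ext
        refine AlgHom.ext fun x => ?_
        obtain ⟨x, rfl⟩ := Ideal.Quotient.mk_surjective x
        rfl
    have h2 := key _ hsI t
    refine asyL_congr ?_ (asyL_add h1 h2)
    intro K _ _ _
    have hfk : Finite (A →ₐ[F] K) := algHom_finite _ _ _
    unfold nu
    refine LP.card_split _ _ _ ?_ ?_
    · intro φ
      rw [hsup, map_mul φ t]
      constructor
      · rintro ⟨h3, h4⟩
        by_cases h5 : φ s = 0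
        · exact Or.inr ⟨⟨h3, h5⟩, h4⟩
        · exact Or.inl ⟨h3, mul_ne_zero h4 h5⟩
      · rintro (⟨h3, h4⟩ | ⟨⟨h3, -⟩, h4⟩)
        · exact ⟨h3, left_ne_zero_of_mul h4⟩
        · exact ⟨h3, h4⟩
    · intro φ
      rw [hsup, map_mul φ t]
      rintro ⟨⟨-, h4⟩, ⟨-, h5⟩, -⟩
      exact h4 (by rw [h5, mul_zero])
  · -- not prime
    have h1 : ∃ a b : A, a ∉ I ∧ b ∉ I ∧ a * b ∈ I := by
      by_contra h
      push Not at h
      apply hp
      refine ⟨htop, ?_⟩
      intro x y hxy
      by_contra h5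
      rw [not_or] at h5
      exact h x y h5.1 h5.2 hxy
    obtain ⟨a, b, ha, hb, hab⟩ := h1
    refine asyL_congr ?_ (asyL_add (key a ha t) (key b hb (a * t)))
    intro K _ _ _
    have hfk : Finite (A →ₐ[F] K) := algHom_finite _ _ _
    unfold nu
    refine LP.card_split _ _ _ ?_ ?_
    · intro φ
      rw [hsup, hsup, map_mul φ a]
      constructor
      · rintro ⟨h3, h4⟩
        by_cases h5 : φ a = 0
        · exact Or.inl ⟨⟨h3, h5⟩, h4⟩
        · refine Or.inr ⟨⟨h3, ?_⟩, mul_ne_zero h5 h4⟩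
          have := h3 _ hab
          rw [map_mul] at this
          exact (mul_eq_zero.1 this).resolve_left h5
      · rintro (⟨⟨h3, -⟩, h4⟩ | ⟨⟨h3, -⟩, h4⟩)
        · exact ⟨h3, h4⟩
        · exact ⟨h3, right_ne_zero_of_mul h4⟩
    · intro φ
      rw [hsup, hsup, map_mul φ a]
      rintro ⟨⟨⟨-, h4⟩, -⟩, -, h5⟩
      exact h5 (by rw [h4, zero_mul])

theorem t_RINGF (hL : S_MAIN) : S_RINGF := by
  intro F _ _ A _ _ _ t
  refine asyL_congr ?_ (asy_nu hL F A ⊥ t)
  intro K _ _ _
  unfold nu
  refine Nat.card_congr (Equiv.subtypeEquivRight fun φ => ?_)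
  constructor
  · intro h
    refine ⟨?_, h⟩
    intro a ha
    rw [Ideal.mem_bot] at ha
    rw [ha, map_zero]
  · exact fun h => h.2

end Pool.Agent.T2h48.LF
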