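import Pool.Agent.T2h48.LF.Stm

/-! Consequences of the asymptotic formula -/

set_option autoImplicit false

namespace Pool.Agent.T2h48.LF

open Finset

/-- the leading term, bounded version -/
theorem bounded {F : Type} [Field F] {ν : (K : Type) → [Field K] → [Finite K] → [Algebra F K] → ℕ}
    (h : AsyL F ν) : ∃ C : ℕ, ∀ (K : Type) [Field K] [Finite K] [Algebra F K], ∃ h d : ℕ,
      h ≤ C ∧ d ≤ C ∧ (h = 0 → ν K = 0) ∧
      |(ν K : ℝ) - h * (Nat.card K : ℝ) ^ d| * √(Nat.card K : ℝ) ≤ C * (Nat.card K : ℝ) ^ d := by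
  classical
  obtain ⟨r, f, d, C, hf, hK⟩ := h
  refine ⟨C * r + ∑ i, f i + ∑ i, d i, fun K _ _ _ => ?_⟩
  have h1 := hK K
  set m := Module.finrank F K with hm
  have hq : (1 : ℝ) ≤ Nat.card K := by exact_mod_cast Nat.card_pos
  have hsq : (1 : ℝ) ≤ √(Nat.card K : ℝ) := by
    rw [Real.one_le_sqrt]
    exact hq
  have hsq2 : √(Nat.card K : ℝ) * √(Nat.card K : ℝ) = Nat.card K := Real.mul_self_sqrt (by positivity)
  set q : ℝ := (Nat.card K : ℝ) with hqdef
  set s := univ.filter fun i : Fin r => f i ∣ m with hs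
  rcases s.eq_empty_or_nonempty with hse | hsn
  · refine ⟨0, 0, Nat.zero_le _, Nat.zero_le _, ?_, ?_⟩
    all_goals
      have e1 : ∀ i : Fin r, ¬ f i ∣ m := by
        intro i hi
        have : i ∈ s := by simp [hs, hi]
        rw [hse] at this
        exact absurd this (Finset.notMem_empty i)
      have e2 : Mt f d m q = 0 := by
        unfold Mt
        exact Finset.sum_eq_zero fun i _ => if_neg (e1 i)
      have e3 : Et f d m q = 0 := by
        unfold Et
        exact Finset.sum_eq_zero fun i _ => if_neg (e1 i)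
      rw [e2, e3, mul_zero, sub_zero, abs_of_nonneg (Nat.cast_nonneg _)] at h1
      have e4 : (ν K : ℝ) ≤ 0 := by
        have : (0 : ℝ) ≤ ν K := Nat.cast_nonneg _
        nlinarith
      have e5 : ν K = 0 := by
        have : (0 : ℝ) ≤ ν K := Nat.cast_nonneg _
        exact_mod_cast le_antisymm e4 this
    · exact fun _ => e5
    · rw [e5]
      simp only [Nat.cast_zero, zero_mul, sub_zero, abs_zero, pow_zero, mul_one]
      positivity
  · obtain ⟨i₀, hi₀, hmax⟩ := s.exists_max_image d hsn
    have hfi₀ : f i₀ ∣ m := by simpa [hs] using hi₀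
    refine ⟨∑ i ∈ s.filter (fun i => d i = d i₀), f i, d i₀, ?_, ?_, ?_, ?_⟩
    · refine le_trans (Finset.sum_le_sum_of_subset (Finset.subset_univ _)) ?_
      omega
    · have : d i₀ ≤ ∑ i, d i := Finset.single_le_sum (fun i _ => Nat.zero_le _) (Finset.mem_univ i₀)
      omega
    · intro h0
      exfalso
      have : f i₀ ≤ ∑ i ∈ s.filter (fun i => d i = d i₀), f i :=
        Finset.single_le_sum (fun i _ => Nat.zero_le _) (by simp [hi₀])
      have := hf i₀
      omega
    · -- the main estimate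
      have e1 : Mt f d m q = ∑ i ∈ s, (f i : ℝ) * q ^ d i := by
        unfold Mt
        rw [Finset.sum_filter]
      have e2 : Et f d m q = ∑ i ∈ s, q ^ d i := by
        unfold Et
        rw [Finset.sum_filter]
      have e3 : Et f d m q ≤ r * q ^ d i₀ := by
        rw [e2]
        calc ∑ i ∈ s, q ^ d i ≤ ∑ i ∈ s, q ^ d i₀ :=
              Finset.sum_le_sum fun i hi => pow_le_pow_right₀ hq (hmax i hi)
          _ = s.card * q ^ d i₀ := by rw [Finset.sum_const, nsmul_eq_mul]
          _ ≤ r * q ^ d i₀ := by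
              refine mul_le_mul_of_nonneg_right ?_ (by positivity)
              have := Finset.card_le_univ s
              rw [Fintype.card_fin] at this
              exact_mod_cast this
      have e4 : Mt f d m q = ((∑ i ∈ s.filter (fun i => d i = d i₀), f i : ℕ) : ℝ) * q ^ d i₀ +
          ∑ i ∈ s.filter (fun i => ¬ d i = d i₀), (f i : ℝ) * q ^ d i := by
        rw [e1, ← Finset.sum_filter_add_sum_filter_not s (fun i => d i = d i₀)]
        congr 1
        rw [Nat.cast_sum, Finset.sum_mul]
        refine Finset.sum_congr rfl fun i hi => ?_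
        rw [(Finset.mem_filter.1 hi).2]
      have e5 : (∑ i ∈ s.filter (fun i => ¬ d i = d i₀), (f i : ℝ) * q ^ d i) * √q ≤
          (∑ i, f i : ℕ) * q ^ d i₀ := by
        rw [Finset.sum_mul, Nat.cast_sum, Finset.sum_mul]
        refine le_trans (Finset.sum_le_sum fun i hi => ?_)
          (Finset.sum_le_sum_of_subset_of_nonneg (Finset.subset_univ _) fun i _ _ => by positivity)
        obtain ⟨hi1, hi2⟩ := Finset.mem_filter.1 hi
        have hlt : d i + 1 ≤ d i₀ := lt_of_le_of_ne (hmax i hi1) hi2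
        rw [mul_assoc]
        refine mul_le_mul_of_nonneg_left ?_ (by positivity)
        calc q ^ d i * √q ≤ q ^ d i * q := by
              refine mul_le_mul_of_nonneg_left ?_ (by positivity)
              nlinarith
          _ = q ^ (d i + 1) := (pow_succ _ _).symm
          _ ≤ q ^ d i₀ := pow_le_pow_right₀ hq hlt
      have e6 : (0 : ℝ) ≤ ∑ i ∈ s.filter (fun i => ¬ d i = d i₀), (f i : ℝ) * q ^ d i :=
        Finset.sum_nonneg fun i _ => by positivity
      set A : ℝ := ((∑ i ∈ s.filter (fun i => d i = d i₀), f i : ℕ) : ℝ) * q ^ d i₀ with hA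
      set R : ℝ := ∑ i ∈ s.filter (fun i => ¬ d i = d i₀), (f i : ℝ) * q ^ d i with hR
      have e7 : |(ν K : ℝ) - A| ≤ |(ν K : ℝ) - Mt f d m q| + R := by
        have : (ν K : ℝ) - A = ((ν K : ℝ) - Mt f d m q) + R := by rw [e4]; ring
        rw [this]
        refine (abs_add_le _ _).trans ?_
        rw [abs_of_nonneg e6]
      calc |(ν K : ℝ) - A| * √q ≤ (|(ν K : ℝ) - Mt f d m q| + R) * √q :=
            mul_le_mul_of_nonneg_right e7 (by positivity)
        _ = |(ν K : ℝ) - Mt f d m q| * √q + R * √q := by ring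
        _ ≤ C * Et f d m q + (∑ i, f i : ℕ) * q ^ d i₀ := add_le_add h1 e5
        _ ≤ C * (r * q ^ d i₀) + (∑ i, f i : ℕ) * q ^ d i₀ := by
            have : (C : ℝ) * Et f d m q ≤ C * (r * q ^ d i₀) :=
              mul_le_mul_of_nonneg_left e3 (Nat.cast_nonneg _)
            linarith
        _ ≤ ((C * r + ∑ i, f i + ∑ i, d i : ℕ) : ℝ) * q ^ d i₀ := by
            have h9 : (0 : ℝ) ≤ ((∑ i, d i : ℕ) : ℝ) * q ^ d i₀ := by positivity
            rw [Nat.cast_add, Nat.cast_add, Nat.cast_mul]
            nlinarith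

end Pool.Agent.T2h48.LF
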