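import Pool.Agent.T2h48.LF.Stm

/-! The leading term of the asymptotic formula -/

set_option autoImplicit false

namespace Pool.Agent.T2h48.LF

open Finset

/-- the dimension -/
def Dm {r : ℕ} (f d : Fin r → ℕ) (m : ℕ) : ℕ := (univ.filter fun i => f i ∣ m).sup d

/-- the number of components -/
def Hm {r : ℕ} (f d : Fin r → ℕ) (m : ℕ) : ℕ :=
  ∑ i ∈ (univ.filter fun i => f i ∣ m).filter (fun i => d i = Dm f d m), f i

theorem lead {r : ℕ} (f d : Fin r → ℕ) (m : ℕ) {q : ℝ} (hq : 1 ≤ q) :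
    |Mt f d m q - Hm f d m * q ^ Dm f d m| * √q ≤ (∑ i, f i : ℕ) * q ^ Dm f d m ∧
      Et f d m q ≤ r * q ^ Dm f d m := by
  classical
  have hsq : (1 : ℝ) ≤ √q := by
    rw [Real.one_le_sqrt]
    exact hq
  have hsq2 : √q * √q = q := Real.mul_self_sqrt (by positivity)
  set s := univ.filter fun i : Fin r => f i ∣ m with hs
  have hle : ∀ i ∈ s, d i ≤ Dm f d m := fun i hi => Finset.le_sup (f := d) hi
  set D := Dm f d m with hD
  have e1 : Mt f d m q = ∑ i ∈ s, (f i : ℝ) * q ^ d i := by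
    unfold Mt
    rw [Finset.sum_filter]
  have e2 : Et f d m q = ∑ i ∈ s, q ^ d i := by
    unfold Et
    rw [Finset.sum_filter]
  constructor
  · have e4 : Mt f d m q = (Hm f d m : ℝ) * q ^ D +
        ∑ i ∈ s.filter (fun i => ¬ d i = D), (f i : ℝ) * q ^ d i := by
      rw [e1, ← Finset.sum_filter_add_sum_filter_not s (fun i => d i = D)]
      congr 1
      unfold Hm
      rw [Nat.cast_sum, Finset.sum_mul]
      refine Finset.sum_congr rfl fun i hi => ?_
      rw [(Finset.mem_filter.1 hi).2]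
    have e6 : (0 : ℝ) ≤ ∑ i ∈ s.filter (fun i => ¬ d i = D), (f i : ℝ) * q ^ d i :=
      Finset.sum_nonneg fun i _ => by positivity
    rw [e4, add_sub_cancel_left, abs_of_nonneg e6, Finset.sum_mul, Nat.cast_sum, Finset.sum_mul]
    refine le_trans (Finset.sum_le_sum fun i hi => ?_)
      (Finset.sum_le_sum_of_subset_of_nonneg (Finset.subset_univ _) fun i _ _ => by positivity)
    obtain ⟨hi1, hi2⟩ := Finset.mem_filter.1 hi
    have hlt : d i + 1 ≤ D := lt_of_le_of_ne (hle i hi1) hi2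
    rw [mul_assoc]
    refine mul_le_mul_of_nonneg_left ?_ (by positivity)
    calc q ^ d i * √q ≤ q ^ d i * q := by
          refine mul_le_mul_of_nonneg_left ?_ (by positivity)
          nlinarith
      _ = q ^ (d i + 1) := (pow_succ _ _).symm
      _ ≤ q ^ D := pow_le_pow_right₀ hq hlt
  · rw [e2]
    calc ∑ i ∈ s, q ^ d i ≤ ∑ i ∈ s, q ^ D :=
          Finset.sum_le_sum fun i hi => pow_le_pow_right₀ hq (hle i hi)
      _ = s.card * q ^ D := by rw [Finset.sum_const, nsmul_eq_mul]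
      _ ≤ r * q ^ D := by
          refine mul_le_mul_of_nonneg_right ?_ (by positivity)
          have := Finset.card_le_univ s
          rw [Fintype.card_fin] at this
          exact_mod_cast this

/-- the leading term, with the periodic functions `Hm` and `Dm` -/
theorem leading {F : Type} [Field F] {ν : (K : Type) → [Field K] → [Finite K] → [Algebra F K] → ℕ}
    {r : ℕ} {f d : Fin r → ℕ} {C : ℕ} (h : ∀ (K : Type) [Field K] [Finite K] [Algebra F K],
      |(ν K : ℝ) - Mt f d (Module.finrank F K) (Nat.card K)| * √(Nat.card K : ℝ) ≤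
        C * Et f d (Module.finrank F K) (Nat.card K)) (K : Type) [Field K] [Finite K] [Algebra F K] :
    |(ν K : ℝ) - Hm f d (Module.finrank F K) * (Nat.card K : ℝ) ^ Dm f d (Module.finrank F K)| *
        √(Nat.card K : ℝ) ≤
      (C * r + ∑ i, f i : ℕ) * (Nat.card K : ℝ) ^ Dm f d (Module.finrank F K) := by
  have hq : (1 : ℝ) ≤ Nat.card K := by exact_mod_cast Nat.card_pos
  obtain ⟨h1, h2⟩ := lead f d (Module.finrank F K) hq
  have h3 := h K
  set m := Module.finrank F K
  set q : ℝ := (Nat.card K : ℝ)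
  have e7 : |(ν K : ℝ) - Hm f d m * q ^ Dm f d m| ≤
      |(ν K : ℝ) - Mt f d m q| + |Mt f d m q - Hm f d m * q ^ Dm f d m| := abs_sub_le _ _ _
  have h5 : (C : ℝ) * Et f d m q ≤ C * (r * q ^ Dm f d m) :=
    mul_le_mul_of_nonneg_left h2 (Nat.cast_nonneg _)
  calc |(ν K : ℝ) - Hm f d m * q ^ Dm f d m| * √q
      ≤ (|(ν K : ℝ) - Mt f d m q| + |Mt f d m q - Hm f d m * q ^ Dm f d m|) * √q :=
        mul_le_mul_of_nonneg_right e7 (by positivity)
    _ = |(ν K : ℝ) - Mt f d m q| * √q + |Mt f d m q - Hm f d m * q ^ Dm f d m| * √q := by ring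
    _ ≤ C * (r * q ^ Dm f d m) + (∑ i, f i : ℕ) * q ^ Dm f d m := add_le_add (h3.trans h5) h1
    _ = _ := by push_cast; ring

theorem dvd_add_prod {r : ℕ} (f : Fin r → ℕ) (m : ℕ) (i : Fin r) :
    f i ∣ m + ∏ i, f i ↔ f i ∣ m :=
  (Nat.dvd_add_iff_left (Finset.dvd_prod_of_mem f (Finset.mem_univ i))).symm

theorem Dm_per {r : ℕ} (f d : Fin r → ℕ) (m : ℕ) : Dm f d (m + ∏ i, f i) = Dm f d m := by
  unfold Dm
  simp only [dvd_add_prod]

theorem Hm_per {r : ℕ} (f d : Fin r → ℕ) (m : ℕ) : Hm f d (m + ∏ i, f i) = Hm f d m := by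
  unfold Hm
  simp only [dvd_add_prod, Dm_per]

/-- if there is no component there are no points -/
theorem Hm_zero {F : Type} [Field F] {ν : (K : Type) → [Field K] → [Finite K] → [Algebra F K] → ℕ}
    {r : ℕ} {f d : Fin r → ℕ} {C : ℕ} (hf : ∀ i, 1 ≤ f i)
    (h : ∀ (K : Type) [Field K] [Finite K] [Algebra F K],
      |(ν K : ℝ) - Mt f d (Module.finrank F K) (Nat.card K)| * √(Nat.card K : ℝ) ≤
        C * Et f d (Module.finrank F K) (Nat.card K)) (K : Type) [Field K] [Finite K] [Algebra F K]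
    (h0 : Hm f d (Module.finrank F K) = 0) : ν K = 0 := by
  classical
  have h1 := h K
  have hq : (1 : ℝ) ≤ Nat.card K := by exact_mod_cast Nat.card_pos
  have hsq : (1 : ℝ) ≤ √(Nat.card K : ℝ) := by
    rw [Real.one_le_sqrt]
    exact hq
  set m := Module.finrank F K with hm
  have hemp : (univ.filter fun i : Fin r => f i ∣ m) = ∅ := by
    by_contra hne
    obtain ⟨i₀, hi₀, hmax⟩ := Finset.exists_max_image _ d (Finset.nonempty_iff_ne_empty.2 hne)
    have hD : d i₀ = Dm f d m := by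
      unfold Dm
      exact le_antisymm (Finset.le_sup (f := d) hi₀) (Finset.sup_le hmax)
    have h2 : f i₀ ≤ Hm f d m := by
      unfold Hm
      exact Finset.single_le_sum (f := f) (fun i _ => Nat.zero_le _) (Finset.mem_filter.2 ⟨hi₀, hD⟩)
    have := hf i₀
    omega
  have e1 : ∀ i : Fin r, ¬ f i ∣ m := by
    intro i hi
    have : i ∈ (univ.filter fun i : Fin r => f i ∣ m) := by simp [hi]
    rw [hemp] at this
    exact absurd this (Finset.notMem_empty i)
  have e2 : Mt f d m (Nat.card K) = 0 := by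
    unfold Mt
    exact Finset.sum_eq_zero fun i _ => if_neg (e1 i)
  have e3 : Et f d m (Nat.card K) = 0 := by
    unfold Et
    exact Finset.sum_eq_zero fun i _ => if_neg (e1 i)
  rw [e2, e3, mul_zero, sub_zero, abs_of_nonneg (Nat.cast_nonneg _)] at h1
  have e4 : (ν K : ℝ) ≤ 0 := by
    have : (0 : ℝ) ≤ ν K := Nat.cast_nonneg _
    nlinarith
  have : (0 : ℝ) ≤ ν K := Nat.cast_nonneg _
  exact_mod_cast le_antisymm e4 this

end Pool.Agent.T2h48.LF
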