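import Pool.Agent.T2h48.LP.T_FORM
import Pool.Agent.T2h48.LP.T_RING

/-!
# Project LF: the theorem of Lang and Weil over the extensions of a finite field `F`, with integral
leading coefficients

`AsyL F ν`: for the extensions `K` of `F` of degree `m` with `q` elements, `ν K` is the sum of the
`f i * q ^ d i` over the `i` with `f i ∣ m`, up to `O(q ^ (-1/2))` times the sum of the `q ^ d i`.
(The `i` are the pieces of a partition; the `i`-th piece has dimension `d i`, and `f i` geometrically irreducible
components, which are defined over the extension of `F` of degree `f i` and conjugate over `F`.)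
-/

set_option autoImplicit false

namespace Pool.Agent.T2h48.LF

open Pool.Agent.R410.LW Pool.Agent.T2h48.LP Pool.Agent.T2h48.DW

/-- the main term -/
noncomputable def Mt {r : ℕ} (f d : Fin r → ℕ) (m : ℕ) (q : ℝ) : ℝ :=
  ∑ i, if f i ∣ m then (f i : ℝ) * q ^ d i else 0

/-- the error term -/
noncomputable def Et {r : ℕ} (f d : Fin r → ℕ) (m : ℕ) (q : ℝ) : ℝ :=
  ∑ i, if f i ∣ m then q ^ d i else 0

/-- see above -/
def AsyL (F : Type) [Field F] (ν : (K : Type) → [Field K] → [Finite K] → [Algebra F K] → ℕ) : Prop :=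
  ∃ (r : ℕ) (f d : Fin r → ℕ) (C : ℕ), (∀ i, 1 ≤ f i) ∧
    ∀ (K : Type) [Field K] [Finite K] [Algebra F K],
      |(ν K : ℝ) - Mt f d (Module.finrank F K) (Nat.card K)| * √(Nat.card K : ℝ) ≤
        C * Et f d (Module.finrank F K) (Nat.card K)

/-- **RINGF** -/
def S_RINGF : Prop :=
  ∀ (F : Type) [Field F] [Finite F] (A : Type) [CommRing A] [Algebra F A] [Algebra.FiniteType F A]
    (t : A), AsyL F (fun K _ _ _ => Nat.card {φ : A →ₐ[F] K // φ t ≠ 0})

/-- **FORMF** -/
def S_FORMF : Prop :=
  ∀ (F : Type) [Field F] [Finite F] (n : ℕ) (φ : QF F n),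
    AsyL F (fun K _ _ _ => Nat.card {x : Fin n → K // φ.Holds x})

end Pool.Agent.T2h48.LF
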